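import Mathlib
import Pool.Agent.R930.Conn
import Pool.Agent.Results.MP_de8692_ag.SumsWithAnyMotive

/-!
# Points of `𝒜_g` with a good factor are not `ℓ`-Galois special

Let `x` be a point of `𝒜_g` over a number field `k` (large enough; or over a finitely generated field of
characteristic zero) such that `A_x` is isogenous to `A × B`, where `A` is an abelian variety with the
conditions below and `B` is ANY abelian variety. Let `V = V_ℓ(A)` and `W = V_ℓ(B)`, with the actions `ρ`,
`τ` of the Galois group `Γ` of `k`, the cyclotomic character `χ` and the Weil pairing `ω` of a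
polarization of `A`. By theorems of Faltings `V` is semisimple, also over finite extensions of `k`
(`IsTateModule`), and the endomorphisms of `V` which commute with a subgroup of finite index of `Γ` are
linear combinations of endomorphisms of `A`. The Frobenius elements at the places of good reduction away
from `ℓ` are dense in `Γ`.

Suppose that `A` is good (`IsGood`, see `Pool/Agent/Results/MP_de8692_ag/SumsWithAnyMotive.lean`): all
strongly irreducible subspaces `U` of `V`, with coefficients extended to the algebraic closure of `ℚ_ℓ`,
are symplectic (the geometric simple factors of `A` are of type I or II in the classification of Albert),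
and for each `U` there is ONE place (which may depend on `U`) at which a slope is simple on `U`, or at
which an outer slope occurs on `U` if the dimension of `U` is at most four, or at which the reduction
is semistable of toric rank one on `U`; or the dimensions of the `U` are four or two modulo four and the
Frobenius elements with two slopes are dense in `Γ`.

Suppose that the Galois action on `W` is potentially abelian (`B` has complex multiplication, or
`B = 0`), or, much more generally, that for every piece `U` every subgroup of finite index of `Γ`
contains an element which acts trivially on `W`, with `χ = 1`, and which acts nontrivially on `U`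
(`KernelActs`). This holds if for every `U` there is a place (of residue characteristic different from
`ℓ`) at which `B` has potentially good reduction and at which an inertia group acts on `U` through an
infinite group; or if the Lie algebras of the images of `Γ` in `GL(V)` and `GL(W)` have no common
nonabelian quotient.

Let `Y` be a closed irreducible subvariety of `𝒜_g` through `x` over which `A` is deformed together with
its endomorphisms: the abelian variety over the generic point of `Y` is isogenous to `A' × B'`, with
specializations `A` and `B` at `x`, and the endomorphisms of `A` extend to endomorphisms of `A'` over a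
finite extension of the function field `k(Y)`. After a finite extension of `k` let `x` be a rational
point of a smooth `Y'` that is finite over `Y`. Let `H` be the Galois group of `k(Y')`, `p : H → Γ` the
restriction to the algebraic closure of `k`, and `i : D → H` the decomposition group of `x`, which acts on
`V` and `W` through its quotient `Γ` (good reduction at `x`). The actions of `H` are `R` on
`V = V_ℓ(A')` and `T` on `W = V_ℓ(B')`, and the bilinear forms on `V` which are multiplied by `χ` under a
subgroup of finite index of `Γ` have this property under `H`, as they come from endomorphisms and the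
polarization. This is the structure `DeformsWithEndomorphisms`.

The theorem. (1) The multilinear forms on `V ⊕ W`, in any number of variables, which are multiplied by a
power `χ ^ j` under a subgroup of finite index are the same for `Γ` and `H` if and only if this holds for
the forms on `W`. (2) If the deformation of `B` is constant (`T = τ ∘ p`), they are the same.

The connected groups `G_{ℓ,x} ⊆ G_{ℓ,Y}` are reductive (Faltings), and so they are determined by the
tensors that they fix. So (1) says that `G_{ℓ,x} = G_{ℓ,Y}` if and only if this holds for `B`, that is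
for the point of the moduli space given by `B` and the subvariety given by `B'`. As the endomorphism
algebras of the geometric simple factors of `A` are of type I or II, there is for `A ≠ 0` a
positive-dimensional `Y` with `B' = B` constant (Shimura; moduli of abelian varieties with a
polarization and endomorphisms), and (2) says that `G_{ℓ,x} = G_{ℓ,Y}` for this `Y`: the point `x` is not
`ℓ`-Galois special.

So an `ℓ`-Galois special point `x` of `𝒜_g` over the algebraic numbers never has such a factor `A`. For
instance, if `A_x` is isogenous to `A × B` where `A ≠ 0` is a product of elliptic curves and of abelian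
surfaces without complex multiplication and `B` is an abelian variety with complex multiplication, or
where `A` has endomorphism ring `ℤ` and toric rank one at a place of potentially good reduction of `B`,
then `x` is not `ℓ`-Galois special, for any `ℓ`; the Mumford-Tate conjecture is not assumed for `B`.
-/

namespace Pool.Agent.Results.MP_09799c_ag.GoodFactors

open Module TensorProduct Polynomial Pool.Agent.Y126.Notions Pool.Agent.R930
  Pool.Agent.R930.Notions Pool.Agent.TH776.FM Pool.Agent.H204R3.GP
open Pool.Agent.Results.MP_021685_ag.ProductsOverNumberFields (GoodPieces KernelActs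
  PotentiallyAbelian)
open Pool.Agent.Results.MP_de8692_ag.SumsWithAnyMotive (IsGood ContinuousIntegral)

noncomputable section

/-- A Tate form: a multilinear form which is multiplied by the `j`-th power of the character under a
subgroup of finite index. -/
def IsTateForm {k V Γ : Type} [Field k] [AddCommGroup V] [Module k V] [Group Γ]
    (ρ : Representation k Γ V) (χ : Γ →* k) {s : ℕ} (j : ℤ)
    (φ : MultilinearMap k (fun _ : Fin s => V) k) : Prop :=
  ∃ Δ : Subgroup Γ, Δ.FiniteIndex ∧ ∀ g ∈ Δ, ∀ v : Fin s → V,
    φ (fun l => ρ g (v l)) = χ g ^ j * φ v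

/-- The actions `R` on `V` and `T` on `W` of `H` are deformations of the actions `ρ` and `τ` of `Γ`,
together with all endomorphisms of `V`: `D` is the decomposition group, which maps onto `Γ` and acts
through `Γ`, and the bilinear Tate forms on `V` for `Γ` are Tate forms for `H`. -/
structure DeformsWithEndomorphisms {k V W Γ D H : Type} [Field k] [AddCommGroup V] [Module k V]
    [AddCommGroup W] [Module k W] [Group Γ] [Group D] [Group H] (ρ : Representation k Γ V)
    (τ : Representation k Γ W) (χ : Γ →* k) (i : D →* H) (p : H →* Γ) (R : Representation k H V)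
    (T : Representation k H W) : Prop where
  surjective : Function.Surjective (p.comp i)
  specialization : ∀ d, R (i d) = ρ (p (i d)) ∧ T (i d) = τ (p (i d))
  endomorphisms : ∀ B : V →ₗ[k] V →ₗ[k] k, IsTate2 ρ χ B → IsTate2 R (χ.comp p) B

/-- The groups `Γ` and `H` have the same Tate forms. -/
def SameTateForms {k V Γ H : Type} [Field k] [AddCommGroup V] [Module k V]
    [Group Γ] [Group H] (ρ : Representation k Γ V) (χ : Γ →* k)
    (R : Representation k H V) (ν : H →* k) : Prop :=
  ∀ (s : ℕ) (j : ℤ) (φ : MultilinearMap k (fun _ : Fin s => V) k),
    IsTateForm ρ χ j φ ↔ IsTateForm R ν j φ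

section aux

variable {k V Γ D H : Type} [Field k] [AddCommGroup V] [Module k V] [Group Γ] [Group D] [Group H]
  {ρ : Representation k Γ V} {χ : Γ →* k} {i : D →* H} {p : H →* Γ} {R : Representation k H V}

/-- Specialization of Tate forms. -/
theorem specialize (hs : Function.Surjective (p.comp i)) (hR : ∀ d v, R (i d) v = ρ (p (i d)) v)
    {s : ℕ} {j : ℤ} {φ : MultilinearMap k (fun _ : Fin s => V) k}
    (hφ : IsTateForm R (χ.comp p) j φ) : IsTateForm ρ χ j φ := by
  obtain ⟨H', hH', hφ⟩ := hφ
  refine ⟨(H'.comap i).map (p.comp i), ⟨?_⟩, ?_⟩
  · have h1 : (H'.comap i).FiniteIndex := finiteIndex_comap i hH'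
    have h2 := Subgroup.index_map_dvd (H'.comap i) hs
    exact fun h => h1.index_ne_zero (Nat.eq_zero_of_zero_dvd (h ▸ h2))
  · rintro _ ⟨d, hd, rfl⟩ v
    have h1 := hφ (i d) hd v
    simp only [hR] at h1
    exact h1

end aux

theorem result (ℓ : ℕ) [Fact ℓ.Prime] {V Γ : Type} [AddCommGroup V] [Module ℚ_[ℓ] V]
    [FiniteDimensional ℚ_[ℓ] V] [Group Γ] [TopologicalSpace Γ] [IsTopologicalGroup Γ]
    (ρ : Representation ℚ_[ℓ] Γ V) (χ : Γ →* ℚ_[ℓ])
    (ω : V →ₗ[ℚ_[ℓ]] V →ₗ[ℚ_[ℓ]] ℚ_[ℓ]) (hA : IsTateModule ρ χ ω)
    (hcontinuous : ContinuousIntegral ρ) (hgood : IsGood ρ χ)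
    {W : Type} [AddCommGroup W] [Module ℚ_[ℓ] W] [FiniteDimensional ℚ_[ℓ] W]
    (τ : Representation ℚ_[ℓ] Γ W)
    (hW : PotentiallyAbelian τ ∨ KernelActs (extend (AlgebraicClosure ℚ_[ℓ]) ρ)
      ((algebraMap ℚ_[ℓ] (AlgebraicClosure ℚ_[ℓ]) : ℚ_[ℓ] →* _).comp χ) τ)
    {D H : Type} [Group D] [Group H] (i : D →* H) (p : H →* Γ) (R : Representation ℚ_[ℓ] H V)
    (T : Representation ℚ_[ℓ] H W) (hdeform : DeformsWithEndomorphisms ρ τ χ i p R T) :
    (SameTateForms (ρ.prod τ) χ (R.prod T) (χ.comp p) ↔ SameTateForms τ χ T (χ.comp p)) ∧
      (T = τ.comp p → SameTateForms (ρ.prod τ) χ (R.prod T) (χ.comp p)) := by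
  have hi : SameTateForms (ρ.prod τ) χ (R.prod T) (χ.comp p) ↔
      SameTateForms τ χ T (χ.comp p) := by
    constructor
    · intro h s j ψ
      refine ⟨fun hψ => ?_, specialize hdeform.surjective fun d v => by
        rw [(hdeform.specialization d).2]⟩
      obtain ⟨Δ, hΔ, hψ⟩ := hψ
      obtain ⟨H', hH', h1⟩ := (h s j (ψ.compLinearMap fun _ => LinearMap.snd ℚ_[ℓ] V W)).1
        ⟨Δ, hΔ, fun g hg v => hψ g hg fun i => (v i).2⟩
      exact ⟨H', hH', fun g hg w => h1 g hg fun i => (0, w i)⟩
    · intro h s j φ
      refine ⟨fun hφ => ?_, specialize hdeform.surjective fun d v => ?_⟩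
      · obtain ⟨H₀, hH₀, h1⟩ := exists_fix T (χ.comp p)
        obtain ⟨H₂, hH₂, h2⟩ := exists_fix_two R (χ.comp p) {B | IsTate2 ρ χ B}
          fun B hB => hdeform.endomorphisms B hB
        obtain ⟨G, hG⟩ : ∃ G : Subgroup H, G = H₂ ⊓ H₀ := ⟨_, rfl⟩
        have hGf : G.FiniteIndex := by rw [hG]; infer_instance
        have hG1 : ∀ h ∈ G, h ∈ H₂ ∧ h ∈ H₀ := fun h hh => by rw [hG] at hh; exact hh
        have h3 := (Pool.Agent.Results.MP_de8692_ag.SumsWithAnyMotive.result ℓ ρ χ ω hA hcontinuous
          hgood τ hW (G := G) (R.comp G.subtype) (T.comp G.subtype)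
          ((χ.comp p).comp G.subtype) (fun B hB h u v => h2 B hB h.1 (hG1 h.1 h.2).1 u v)).2
          fun s j ψ hψ g w => h1 s j ψ ((h s j ψ).1 hψ) g.1 (hG1 g.1 g.2).2 w
        exact ⟨G, hGf, fun g hg v => h3 s j φ hφ ⟨g, hg⟩ v⟩
      · change (R (i d) v.1, T (i d) v.2) = (ρ (p (i d)) v.1, τ (p (i d)) v.2)
        rw [(hdeform.specialization d).1, (hdeform.specialization d).2]
  refine ⟨hi, fun hT => hi.2 fun s j ψ => ⟨?_, specialize hdeform.surjective fun d v => by
        rw [(hdeform.specialization d).2]⟩⟩
  rintro ⟨Δ, hΔ, hψ⟩
  refine ⟨Δ.comap p, finiteIndex_comap p hΔ, fun g hg v => ?_⟩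
  rw [hT]
  exact hψ (p g) hg v

end

end Pool.Agent.Results.MP_09799c_ag.GoodFactors
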