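import Mathlib
import Pool.Agent.R930.Conn
import Pool.Agent.Results.MP_021685_ag.OnePlaceForEachPiece

/-!
# Points of `𝒜_g` with one good place for each geometric piece are not `ℓ`-Galois special

Let `x` be a point of `𝒜_g` over a number field `k` (large enough; or over a finitely generated field of
characteristic zero), `A = A_x`, `V = V_ℓ(A)` with the action `ρ` of the Galois group `Γ` of `k`, the
cyclotomic character `χ` and the Weil pairing `ω` of the polarization; `K` is the algebraic closure of
`ℚ_ℓ`. By the theorems of Faltings `V` is semisimple, also over finite extensions of `k`, and the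
endomorphisms of `V` which commute with a subgroup of finite index of `Γ` are combinations of
endomorphisms of `A`. The Frobenius elements at the places of good reduction away from `ℓ` are dense.

Suppose that there are only good pieces (`OnlyGoodPieces`, see
`Pool/Agent/Results/MP_021685_ag/OnePlaceForEachPiece.lean`): for every strongly irreducible subspace `U`
of `K ⊗ V` of dimension at least two there is ONE place (which may depend on `U`) with two slopes such
that for one embedding the multiplicity of a slope on `U` is prime to the dimension of `U`, or, for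
symplectic `U`, a place with three slopes such that an outer one is simple on `U`, or occurs on `U` and
the dimension of `U` is at most four, or a place at which the toric rank on `U` is one (or two, for
symplectic `U`); lines are not self-dual, and if `U` is not self-dual its twists which occur in `K ⊗ V`
are isomorphic to `U`, or both slopes occur on `U` for a dense set of Frobenius elements. So the
geometric simple factors of `A` may be of the types I, II and IV in the classification of Albert.

Let `Y` be a closed irreducible subvariety of `𝒜_g` through `x`, defined over `k`, such that the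
endomorphisms of `A` extend to the abelian variety `A'` over the generic point of `Y` (over a finite
extension of the function field `k(Y)`), and the multiplicities of the action of the centre of the
endomorphism algebra on the tangent space are constant (`Y` lies in the Shimura variety of PEL type
given by `A`). After a finite extension of `k` let `x` be a rational point of a smooth `Y'` which is
finite over `Y`, let `H` be the Galois group of `k(Y')`, `p : H → Γ` the restriction to the algebraic
closure of `k`, `R` the action of `H` on `V = V_ℓ(A')`, and let `i : D → H` be the decomposition group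
of `x`, which acts on `V` through its quotient `Γ`. The Tate classes of degree two on the powers of `A`
are divisor classes, which extend to the powers of `A'`, and the Weil classes (the determinants of
families of pieces which are not dual to each other, on which `Γ` acts through a power of `χ`) extend
to flat sections over (a finite covering of) `Y` which are Hodge classes everywhere, and so absolute
Hodge classes by the theorem of Deligne; a subgroup of finite index of `H` acts on their products through
powers of `χ`. This is the structure `DeformsWithWeilClasses`.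

The theorem: on all powers `A ^ n`, in all degrees, the Tate classes for subgroups of finite index of
`Γ` and for subgroups of finite index of `H` are the same. The connected groups `G_{ℓ,x} ⊆ G_{ℓ,Y}` are
reductive (Faltings) and contain the homotheties, and so they are determined by these classes. So
`G_{ℓ,x} = G_{ℓ,Y}`.

Consequence: if `x` is `ℓ`-Galois special, there is no such `Y` of positive dimension, that is, the
Shimura variety of PEL type given by `A` has dimension zero. Then the signatures of the hermitian forms
on the isotypic parts of `A` are all definite, and `A` has complex multiplication. So Q1 has a positive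
answer for all points `x` with `OnlyGoodPieces`: such a point is `ℓ`-Galois special only if it is a CM
point.
-/

namespace Pool.Agent.Results.MP_09799c_ag.OnePlaceForEachPiece

open Module TensorProduct Polynomial Pool.Agent.Y126.Notions Pool.Agent.R930
  Pool.Agent.R930.Notions
open Pool.Agent.Results.MP_021685_ag.OnePlaceForEachPiece (OnlyGoodPieces)

noncomputable section

/-- The action `R` of `H` on `V` is a deformation of the action `ρ` of `Γ` together with the Tate
classes of degree two and the Weil classes on all powers: `D` is the decomposition group, which maps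
onto `Γ` and acts through `Γ`, and a subgroup of finite index of `H` acts on a product of Tate forms of
degree two and of Weil classes (for `Γ`) through a power of `χ`. -/
structure DeformsWithWeilClasses {k V Γ D H : Type} [Field k] [AddCommGroup V] [Module k V]
    [Group Γ] [Group D] [Group H] (K : Type) [Field K] [Algebra k K] (ρ : Representation k Γ V)
    (χ : Γ →* k) (ω : V →ₗ[k] V →ₗ[k] k) (i : D →* H) (p : H →* Γ) (R : Representation k H V) :
    Prop where
  surjective : Function.Surjective (p.comp i)
  specialization : ∀ d, R (i d) = ρ (p (i d))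
  classes : ∀ n m : ℕ, ∀ g ∈ weilProducts (extend K ρ) ((algebraMap k K : k →* K).comp χ)
    (LinearMap.BilinForm.baseChange K ω) n m, ∃ H' : Subgroup H, H'.FiniteIndex ∧ ∀ h ∈ H',
      ∀ v : Fin m × Fin 2 → Fin n → K ⊗[k] V,
        g (fun l j => extend K R h (v l j)) = algebraMap k K (χ (p h)) ^ m * g v

theorem result (ℓ : ℕ) [Fact ℓ.Prime] {V Γ : Type} [AddCommGroup V] [Module ℚ_[ℓ] V]
    [FiniteDimensional ℚ_[ℓ] V] [Group Γ] [TopologicalSpace Γ] [IsTopologicalGroup Γ]
    (ρ : Representation ℚ_[ℓ] Γ V) (χ : Γ →* ℚ_[ℓ])
    (ω : V →ₗ[ℚ_[ℓ]] V →ₗ[ℚ_[ℓ]] ℚ_[ℓ]) (halt : ∀ v, ω v v = 0)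
    (hnondeg : ∀ u, (∀ v, ω v u = 0) → u = 0)
    (hω : ∀ s u v, ω (ρ s u) (ρ s v) = χ s * ω u v)
    (hsemisimple : PotentiallySemisimple ρ)
    {d : ℕ} (b : Basis (Fin d) ℚ_[ℓ] V)
    (hintegral : ∀ g i j, ‖LinearMap.toMatrix b b (ρ g) i j‖ ≤ 1)
    (hcontinuous : ∀ i j, Continuous fun g => LinearMap.toMatrix b b (ρ g) i j)
    (hfrobenius : Dense {γ | IsFrob ρ χ γ})
    (hpieces : OnlyGoodPieces (extend (AlgebraicClosure ℚ_[ℓ]) ρ)
      ((algebraMap ℚ_[ℓ] (AlgebraicClosure ℚ_[ℓ]) : ℚ_[ℓ] →* _).comp χ) (IsFrobenius ρ χ))
    {D H : Type} [Group D] [Group H] (i : D →* H) (p : H →* Γ) (R : Representation ℚ_[ℓ] H V)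
    (hdeform : DeformsWithWeilClasses (AlgebraicClosure ℚ_[ℓ]) ρ χ ω i p R)
    {n m : ℕ} (f : (Fin n → V) [⋀^Fin m × Fin 2]→ₗ[ℚ_[ℓ]] ℚ_[ℓ]) :
    IsTateClass ρ χ f ↔ IsTateClass R (χ.comp p) f := by
  constructor
  · intro hf
    have h1 := (Pool.Agent.Results.MP_021685_ag.OnePlaceForEachPiece.result ℓ ρ χ ω halt hnondeg hω
      hsemisimple b hintegral hcontinuous hfrobenius hpieces).1 n m f hf
    have h2 : ∀ F ∈ Submodule.span (AlgebraicClosure ℚ_[ℓ])
        ((fun (g : (Fin m × Fin 2 → Fin n → AlgebraicClosure ℚ_[ℓ] ⊗[ℚ_[ℓ]] V) →
          AlgebraicClosure ℚ_[ℓ]) (v : Fin m × Fin 2 → Fin n → V) =>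
          g (fun l i => (1 : AlgebraicClosure ℚ_[ℓ]) ⊗ₜ[ℚ_[ℓ]] v l i)) ''
          weilProducts (extend (AlgebraicClosure ℚ_[ℓ]) ρ)
            ((algebraMap ℚ_[ℓ] (AlgebraicClosure ℚ_[ℓ]) : ℚ_[ℓ] →* AlgebraicClosure ℚ_[ℓ]).comp χ)
            (LinearMap.BilinForm.baseChange (AlgebraicClosure ℚ_[ℓ]) ω) n m),
        ∃ H' : Subgroup H, H'.FiniteIndex ∧ ∀ h ∈ H', ∀ v : Fin m × Fin 2 → Fin n → V,
          F (fun l j => R h (v l j)) =
            algebraMap ℚ_[ℓ] (AlgebraicClosure ℚ_[ℓ]) (χ (p h)) ^ m * F v := by
      intro F hF
      induction hF using Submodule.span_induction with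
      | mem F hF =>
        obtain ⟨g, hg, rfl⟩ := hF
        obtain ⟨H', hH', h3⟩ := hdeform.classes n m g hg
        refine ⟨H', hH', fun h hh v => ?_⟩
        have h4 := h3 h hh fun l j => (1 : AlgebraicClosure ℚ_[ℓ]) ⊗ₜ[ℚ_[ℓ]] v l j
        exact h4
      | zero => exact ⟨⊤, inferInstance, fun h _ v => by simp⟩
      | add F F' _ _ h3 h4 =>
        obtain ⟨H', hH', h3⟩ := h3
        obtain ⟨H'', hH'', h4⟩ := h4
        refine ⟨H' ⊓ H'', inferInstance, fun h hh v => ?_⟩
        rw [Pi.add_apply, Pi.add_apply, h3 h hh.1, h4 h hh.2, mul_add]
      | smul c F _ h3 =>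
        obtain ⟨H', hH', h3⟩ := h3
        refine ⟨H', hH', fun h hh v => ?_⟩
        rw [Pi.smul_apply, Pi.smul_apply, h3 h hh, smul_eq_mul, smul_eq_mul]
        ring
    obtain ⟨H', hH', h3⟩ := h2 _ h1
    refine ⟨H', hH', fun h hh v => ?_⟩
    apply (algebraMap ℚ_[ℓ] (AlgebraicClosure ℚ_[ℓ])).injective
    rw [map_mul, map_pow]
    exact h3 h hh v
  · rintro ⟨H', hH', hf⟩
    refine ⟨(H'.comap i).map (p.comp i), ⟨?_⟩, ?_⟩
    · have h1 : (H'.comap i).FiniteIndex := finiteIndex_comap i hH'
      have h2 := Subgroup.index_map_dvd (H'.comap i) hdeform.surjective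
      exact fun h => h1.index_ne_zero (Nat.eq_zero_of_zero_dvd (h ▸ h2))
    · rintro _ ⟨d, hd, rfl⟩ v
      have h1 := hf (i d) hd v
      rw [hdeform.specialization] at h1
      exact h1

end

end Pool.Agent.Results.MP_09799c_ag.OnePlaceForEachPiece
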