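import Pool.Agent.R914.LG.Main

/-!
# `ℓ`-Galois special points and Tate tensors of degree four

Let `x` be a point of `𝒜_g`, `V = H¹(A_x, ℚ_ℓ)` and `𝔤 ⊂ End V` the Lie algebra of `G_{ℓ,x}`. For every
closed irreducible subvariety `Y` of positive dimension through `x` the group `G_{ℓ,Y}` of the generic
point acts on the same space `V` (specialisation) and contains `G_{ℓ,x}`; let `L Y` be its Lie algebra.
As the groups are connected, `G_{ℓ,Y} = G_{ℓ,x}` if and only if `L Y = 𝔤`, and `x` is `ℓ`-Galois special
if `L Y ≠ 𝔤` for all `Y`.

*Theorem.* `G_{ℓ,Y} = G_{ℓ,x}` if and only if all Tate tensors of `A_x` of degree four, that is, the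
invariants of `𝔤` in `V ⊗ V ⊗ V* ⊗ V* ⊂ H⁴(A_x⁴)(2)`, are Tate tensors of the abelian variety over the
generic point of `Y`. Therefore `x` is `ℓ`-Galois special if and only if on every `Y` of positive
dimension through `x` one of these (finitely many linearly independent) Tate tensors is lost.

So Q1 says that for every non-CM point of `𝒜_g` over `ℚ̄` there is a subvariety of positive dimension
through the point along which all Tate tensors of degree four persist; by the equivalences listed in the
problem this is a form of the Mumford–Tate conjecture for all abelian varieties of dimension `g` in which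
only classes of degree four and no Hodge theory occur.

The hypotheses are known: `V` is semisimple (Faltings), so that `G_{ℓ,x}` is reductive and `End V` is
semisimple (`IsReductive`). For `SameDet`: the commutant of `L Y` is `End(A_Y) ⊗ ℚ_ℓ` (Faltings), its
centre `Z` acts also on `A_x`, and the determinant of `V` over `Z` is, for `x` as for the generic point of
`Y`, given by a motive with complex multiplication which depends only on the action of `Z` on the Lie
algebra of the abelian variety, hence is the same for both (Deligne, Serre, Ribet).

*Proof.* Every `𝔤`-stable subspace of `End V` is the image of a `𝔤`-invariant projection, which is a Tate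
tensor of degree four. If the Tate tensors persist, the subspace is stable under `L Y`. In particular,
`𝔤` is an ideal of `L Y`, and its complement `𝔠` commutes with `𝔤`. The commutants of `𝔤` and `L Y` are
equal, so `𝔠` lies in the centre `Z` of the commutant, and the comparison of the determinants together
with the non-degeneracy of the trace form on `Z` shows that `𝔠 ⊂ 𝔤`.
-/

namespace Pool.Agent.Results.MP_09799c_ag.TateTensorsOfDegreeFour

open Pool.Agent.R914.LG

/-- **A point is `ℓ`-Galois special if and only if on every subvariety of positive dimension through it a
Tate tensor of degree four is lost.** -/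
theorem result {F V : Type} [Field F] [CharZero F] [AddCommGroup V] [Module F V]
    [FiniteDimensional F V] {ι : Type} {𝔤 : Submodule F (Module.End F V)}
    {L : ι → Submodule F (Module.End F V)} (hlie : IsLie 𝔤) (h𝔤 : IsReductive 𝔤)
    (hle : ∀ Y, 𝔤 ≤ L Y) (hdet : ∀ Y, SameDet 𝔤 (L Y)) :
    IsGaloisSpecial 𝔤 L ↔ ∀ Y, ∃ T ∈ tate 𝔤, T ∉ tate (L Y) :=
  special_iff hlie h𝔤 hle hdet

end Pool.Agent.Results.MP_09799c_ag.TateTensorsOfDegreeFour
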